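import Pool.Agent.helper12.DD.Spec

/-! # dd:CJR. Conjugation of chains -/

set_option autoImplicit false

open Pool.Agent.helper49.Blk

namespace Pool.Agent.DD

section

variable {G : Type} [Group G]

/-- conjugation of subgroups by `g` -/
abbrev CJR_c (g : G) (P : Subgroup G) : Subgroup G := P.map (MulAut.conj g).toMonoidHom

lemma CJR_one (P : Subgroup G) : CJR_c 1 P = P := by
  ext x
  simp [CJR_c, Subgroup.mem_map]

lemma CJR_mul (g h : G) (P : Subgroup G) : CJR_c g (CJR_c h P) = CJR_c (g * h) P := by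
  simp only [CJR_c]
  rw [Subgroup.map_map]
  congr 1
  ext x
  simp [mul_assoc]

lemma CJR_inv (g : G) (P : Subgroup G) : CJR_c g⁻¹ (CJR_c g P) = P := by
  rw [CJR_mul, inv_mul_cancel, CJR_one]

lemma CJR_inv' (g : G) (P : Subgroup G) : CJR_c g (CJR_c g⁻¹ P) = P := by
  rw [CJR_mul, mul_inv_cancel, CJR_one]

lemma CJR_le (g : G) {P Q : Subgroup G} (h : P ≤ Q) : CJR_c g P ≤ CJR_c g Q :=
  Subgroup.map_mono h

lemma CJR_le_iff (g : G) {P Q : Subgroup G} : CJR_c g P ≤ CJR_c g Q ↔ P ≤ Q := by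
  refine ⟨fun h => ?_, CJR_le g⟩
  have := CJR_le g⁻¹ h
  rwa [CJR_inv, CJR_inv] at this

lemma CJR_lt_iff (g : G) {P Q : Subgroup G} : CJR_c g P < CJR_c g Q ↔ P < Q := by
  rw [lt_iff_le_not_ge, lt_iff_le_not_ge, CJR_le_iff, CJR_le_iff]

lemma CJR_normalizer (g : G) (P : Subgroup G) :
    CJR_c g (Subgroup.normalizer P) = Subgroup.normalizer (CJR_c g P) :=
  Subgroup.map_equiv_normalizer_eq P (MulAut.conj g)

/-- the greatest normal `p`-subgroup of a conjugate -/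
lemma CJR_op (p : ℕ) (g : G) {H P : Subgroup G} (h : IsOp p H P) :
    IsOp p (CJR_c g H) (CJR_c g P) := by
  have key : ∀ (g : G) (H Q : Subgroup G), Q ≤ H ∧ IsPGroup p Q ∧ H ≤ Subgroup.normalizer Q →
      CJR_c g Q ≤ CJR_c g H ∧ IsPGroup p (CJR_c g Q) ∧
        CJR_c g H ≤ Subgroup.normalizer (CJR_c g Q) := by
    rintro g H Q ⟨h1, h2, h3⟩
    refine ⟨CJR_le g h1, h2.map _, ?_⟩
    rw [← CJR_normalizer]
    exact CJR_le g h3
  refine ⟨key g H P h.1, fun Q hQ => ?_⟩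
  have h1 := key g⁻¹ _ Q hQ
  rw [CJR_inv] at h1
  have h2 := h.2 h1
  have h3 := CJR_le g h2
  rwa [CJR_inv'] at h3

lemma CJR_NC (g : G) (C : List (Subgroup G)) : NC (C.map (CJR_c g)) = CJR_c g (NC C) := by
  apply le_antisymm
  · rw [← CJR_inv' g (NC (C.map (CJR_c g)))]
    apply CJR_le
    unfold NC
    rw [le_iInf₂_iff]
    intro P hP
    rw [← CJR_inv g (Subgroup.normalizer P)]
    apply CJR_le
    rw [CJR_normalizer]
    exact iInf₂_le _ (List.mem_map_of_mem hP)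
  · unfold NC
    rw [le_iInf₂_iff]
    intro Q hQ
    obtain ⟨P, hP, rfl⟩ := List.mem_map.mp hQ
    rw [← CJR_normalizer]
    exact CJR_le g (iInf₂_le _ hP)

lemma CJR_rad (p : ℕ) (g : G) {C : List (Subgroup G)} (h : Radical p C) :
    Radical p (C.map (CJR_c g)) := by
  refine ⟨?_, ?_, ?_, ?_⟩
  · intro h1
    exact h.ne (List.map_eq_nil_iff.mp h1)
  · rw [List.pairwise_map]
    exact h.strict.imp fun {P Q} hPQ => (CJR_lt_iff g).mpr hPQ
  · intro P hP
    rw [List.head?_map, Option.map_eq_some_iff] at hP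
    obtain ⟨Q, hQ, rfl⟩ := hP
    have h1 := CJR_op p g (h.zero Q hQ)
    have h2 : CJR_c g ⊤ = ⊤ := by
      apply top_unique
      calc (⊤ : Subgroup G) = CJR_c g (CJR_c g⁻¹ ⊤) := (CJR_inv' g ⊤).symm
        _ ≤ CJR_c g ⊤ := CJR_le g le_top
    rwa [h2] at h1
  · intro k hk
    rw [List.length_map] at hk
    rw [← List.map_take, CJR_NC, List.getElem_map]
    exact CJR_op p g (h.succ k hk)

end

theorem CJR : CJR_stmt := by
  intro G _
  refine ⟨⟨?_, ?_, ?_⟩, ?_⟩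
  · intro C
    refine ⟨1, ?_⟩
    have : (fun P : Subgroup G => CJR_c 1 P) = id := funext CJR_one
    show C = C.map (CJR_c 1)
    rw [show CJR_c (1 : G) = id from this, List.map_id]
  · rintro C C' ⟨g, rfl⟩
    refine ⟨g⁻¹, ?_⟩
    show C = (C.map (CJR_c g)).map (CJR_c g⁻¹)
    rw [List.map_map]
    have : CJR_c g⁻¹ ∘ CJR_c g = id := funext fun P => CJR_inv g P
    rw [this, List.map_id]
  · rintro C C' C'' ⟨g, rfl⟩ ⟨h, rfl⟩
    refine ⟨h * g, ?_⟩
    show (C.map (CJR_c g)).map (CJR_c h) = C.map (CJR_c (h * g))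
    rw [List.map_map]
    have : CJR_c h ∘ CJR_c g = CJR_c (h * g) := funext fun P => CJR_mul h g P
    rw [this]
  · rintro p C C' ⟨g, rfl⟩ h
    exact CJR_rad p g h

end Pool.Agent.DD
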